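import Pool.Agent.Lib.MP_ab8df0_nt.Fin
import Pool.Agent.Lib.MP_ab8df0_nt.T.B10.Main
import Pool.Agent.Lib.MP_ab8df0_nt.T.B11.Main
import Pool.Agent.Lib.MP_ab8df0_nt.T.B12.Main
import Pool.Agent.Lib.MP_ab8df0_nt.T.B13.Main
import Pool.Agent.Lib.MP_ab8df0_nt.T.B20.Main
import Pool.Agent.Lib.MP_ab8df0_nt.T.B21.Main
import Pool.Agent.Lib.MP_ab8df0_nt.T.B22.Main
import Pool.Agent.Lib.MP_ab8df0_nt.T.B23.Main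
import Pool.Agent.Lib.MP_ab8df0_nt.T.B30.Main
import Pool.Agent.Lib.MP_ab8df0_nt.T.B31.Main
import Pool.Agent.Lib.MP_ab8df0_nt.T.B32.Main
import Pool.Agent.Lib.MP_ab8df0_nt.T.B60.Main
import Pool.Agent.Lib.MP_ab8df0_nt.T.B61.Main
import Pool.Agent.Lib.MP_ab8df0_nt.T.B62.Main
import Pool.Agent.Lib.MP_ab8df0_nt.T.B63.Main
import Pool.Agent.Lib.MP_ab8df0_nt.T.B64.Main
import Pool.Agent.Lib.MP_ab8df0_nt.T.B71.Main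
import Pool.Agent.Lib.MP_ab8df0_nt.T.B72.Main
import Pool.Agent.Lib.MP_ab8df0_nt.T.B8a.Main
import Pool.Agent.Lib.MP_ab8df0_nt.T.B8b.Main
import Pool.Agent.Lib.MP_ab8df0_nt.T.B81.Main
import Pool.Agent.Lib.MP_ab8df0_nt.T.B82.Main

namespace Pool.Agent.Results.MP_ab8df0_nt.AllNine

open Pool.Agent.Lib.MP_ab8df0_nt

theorem result :
    {p : ℤ × ℤ × ℤ | Int.gcd (Int.gcd p.1 p.2.1) p.2.2 = 1 ∧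
      p.1 ^ 4 + 2 * p.2.1 ^ 3 + p.2.2 ^ 3 = 0} =
      {(43, -203, 237), (-43, -203, 237), (1, -1, 1), (-1, -1, 1), (1, 0, -1), (-1, 0, -1)} ∧
    {p : ℤ × ℤ × ℤ | Int.gcd (Int.gcd p.1 p.2.1) p.2.2 = 1 ∧
      p.1 ^ 4 + 3 * p.2.1 ^ 3 + p.2.2 ^ 3 = 0} =
      {(895, -6202, 4199), (-895, -6202, 4199), (1, 0, -1), (-1, 0, -1)} ∧
    {p : ℤ × ℤ × ℤ | Int.gcd (Int.gcd p.1 p.2.1) p.2.2 = 1 ∧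
      p.1 ^ 4 + 3 * p.2.1 ^ 3 + 2 * p.2.2 ^ 3 = 0} =
      {(1, -1, 1), (-1, -1, 1)} ∧
    {p : ℤ × ℤ × ℤ | Int.gcd (Int.gcd p.1 p.2.1) p.2.2 = 1 ∧
      p.1 ^ 4 + 4 * p.2.1 ^ 3 + p.2.2 ^ 3 = 0} =
      {(1, 0, -1), (-1, 0, -1)} ∧
    {p : ℤ × ℤ × ℤ | Int.gcd (Int.gcd p.1 p.2.1) p.2.2 = 1 ∧
      2 * p.1 ^ 4 - p.2.1 ^ 4 + p.2.2 ^ 3 = 0} =
      {(0, 1, 1), (0, -1, 1), (1, 1, -1), (1, -1, -1), (-1, 1, -1), (-1, -1, -1)} ∧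
    {p : ℤ × ℤ × ℤ | Int.gcd (Int.gcd p.1 p.2.1) p.2.2 = 1 ∧
      p.1 ^ 5 + 2 * p.2.1 ^ 3 + p.2.2 ^ 3 = 0} =
      {(1, -1, 1), (1, 0, -1), (-1, 0, 1), (-1, 1, -1)} ∧
    {p : ℤ × ℤ × ℤ | Int.gcd (Int.gcd p.1 p.2.1) p.2.2 = 1 ∧
      p.1 ^ 5 + p.2.1 ^ 4 - 2 * p.2.2 ^ 2 = 0} =
      {(-1, 1, 0), (-1, -1, 0), (1, 1, 1), (1, 1, -1), (1, -1, 1), (1, -1, -1)} ∧
    {p : ℤ × ℤ × ℤ | Int.gcd (Int.gcd p.1 p.2.1) p.2.2 = 1 ∧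
      p.1 ^ 5 + p.2.1 ^ 4 - 3 * p.2.2 ^ 2 = 0} =
      {(-1, 1, 0), (-1, -1, 0), (11, 29, 538), (11, 29, -538), (11, -29, 538), (11, -29, -538)} ∧
    {p : ℤ × ℤ × ℤ | Int.gcd (Int.gcd p.1 p.2.1) p.2.2 = 1 ∧
      p.1 ^ 5 + p.2.1 ^ 4 + 3 * p.2.2 ^ 2 = 0} =
      {(-1, 1, 0), (-1, -1, 0)} :=
  ⟨Fin.S1 T.B10.bb T.B11.bb T.B12.bb T.B13.bb, Fin.S2 T.B20.bb T.B21.bb T.B22.bb T.B23.bb,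
    Fin.S3 T.B30.bb T.B31.bb T.B32.bb T.B33.bb, Fin.S4, Fin.S5,
    Fin.S6 T.B60.bb T.B61.bb T.B62.bb T.B63.bb T.B64.bb, Fin.S7 T.B71.bb T.B72.bb,
    Fin.S8 T.B8a.bb T.B8b.bb T.B81.bb T.B82.bb, Fin.S9⟩

end Pool.Agent.Results.MP_ab8df0_nt.AllNine
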